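import Pool.Agent.H48.S36.Base

set_option autoImplicit false

open Polynomial

namespace Pool.Agent.H48.S36

open Pool.Agent.H32.S36

noncomputable section

section charp
variable (p : ℕ) [hp : Fact p.Prime]

instance : CharP (D2 (ZMod p)) p := by
  unfold D2
  have h1 : CharP (PowerSeries (ZMod p)) p := by
    exact charP_of_injective_ringHom (f := (PowerSeries.C (R := ZMod p))) PowerSeries.C_injective p
  exact charP_of_injective_ringHom (f := (PowerSeries.C (R := PowerSeries (ZMod p))))
    PowerSeries.C_injective p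

theorem gL_p : gL (ZMod p) p = gt (ZMod p) ^ p + 36 ^ p * gu (ZMod p) ^ p := by
  have hp1 := hp.out.one_lt
  unfold gL
  rw [Finset.sum_range_succ, ← Finset.sum_subset (s₁ := {0}) (s₂ := Finset.range p)]
  · simp
  · intro i hi
    rw [Finset.mem_singleton] at hi
    subst hi
    exact Finset.mem_range.2 (by omega)
  · intro i hi h0
    rw [Finset.mem_singleton] at h0
    have hd : p ∣ p.choose i := hp.out.dvd_choose_self h0 (Finset.mem_range.1 hi)
    have : ((p.choose i : ℕ) : D2 (ZMod p)) = 0 := (CharP.cast_eq_zero_iff _ p _).2 hd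
    rw [this]
    ring

theorem gN_p : gN (ZMod p) p = 36 ^ p * gu (ZMod p) ^ p := by
  have hp1 := hp.out.one_lt
  unfold gN
  obtain ⟨q, rfl⟩ : ∃ q, p = q + 1 := ⟨p - 1, by omega⟩
  rw [Finset.sum_range_succ, Finset.sum_eq_zero]
  · simp
  · intro i hi
    have hi' := Finset.mem_range.1 hi
    have hd : (q + 1) ∣ (q + 1).choose (i + 1) := hp.out.dvd_choose_self (by omega) (by omega)
    have : (((q + 1).choose (i + 1) : ℕ) : D2 (ZMod (q + 1))) = 0 :=
      (CharP.cast_eq_zero_iff _ (q + 1) _).2 hd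
    rw [this]
    ring

theorem D2_pow_card (a : ZMod p) : ((PowerSeries.C (PowerSeries.C a) : D2 (ZMod p))) ^ p
    = PowerSeries.C (PowerSeries.C a) := by
  rw [← map_pow, ← map_pow, ZMod.pow_card]

theorem thirtysix : (36 : D2 (ZMod p)) ^ p = 36 := by
  have h := D2_pow_card p 36
  have e : ((PowerSeries.C (PowerSeries.C (36 : ZMod p)) : D2 (ZMod p))) = 36 := by
    rw [map_ofNat, map_ofNat]
  rwa [e] at h

/-- coefficient extraction -/
theorem coeff_ext (hf r a b : D2 (ZMod p)) :
    PowerSeries.coeff p (PowerSeries.coeff p (gPs hf r a b p)) =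
    PowerSeries.constantCoeff (PowerSeries.coeff (p - 1)
      (36 * (r * (12 * gu (ZMod p) - hf * (gu (ZMod p) * gt (ZMod p) + 1)
        + hf * (gu (ZMod p) * gt (ZMod p) * a + gu (ZMod p) * b)))
      + 72 * (r * (-9 * gu (ZMod p) + 3 * hf ^ 2 * (gu (ZMod p) * gt (ZMod p) + 1))))) := by
  have hp1 := hp.out.one_lt
  set t := gt (ZMod p) with ht
  set u := gu (ZMod p) with hu
  set al' := r * (12 * u - hf * (u * t + 1) + hf * (u * t * a + u * b)) with hal
  set be' := r * (-9 * u + 3 * hf ^ 2 * (u * t + 1)) with hbe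
  have e1 : gPs hf r a b p = (1 + t ^ p) * (1 + u ^ p) *
      (t * al' * t ^ p + t * (36 * al' + 72 * be') * u ^ p) := by
    unfold gPs gal gbe
    rw [gL_p, gN_p, thirtysix, ← ht, ← hu, add_pow_char, add_pow_char, one_pow, hal, hbe]
    ring
  have e2 : gPs hf r a b p = t ^ p * (t * ((1 + t ^ p) * (1 + u ^ p) * al'
        + (1 + u ^ p) * u ^ p * (36 * al' + 72 * be')))
      + t * (((1 + u ^ p) * u ^ p) * (36 * al' + 72 * be')) := by
    rw [e1]; ring
  rw [e2, map_add]
  have e3 : PowerSeries.coeff p (t ^ p * (t * ((1 + t ^ p) * (1 + u ^ p) * al'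
        + (1 + u ^ p) * u ^ p * (36 * al' + 72 * be')))) = 0 := by
    have h := PowerSeries.coeff_X_pow_mul (t * ((1 + t ^ p) * (1 + u ^ p) * al'
        + (1 + u ^ p) * u ^ p * (36 * al' + 72 * be'))) p 0
    rw [zero_add] at h
    rw [ht, gt] at h ⊢
    rw [h, PowerSeries.coeff_zero_X_mul]
  rw [e3, zero_add]
  obtain ⟨q, hq⟩ : ∃ q, p = q + 1 := ⟨p - 1, by omega⟩
  have e4 : PowerSeries.coeff p (t * (((1 + u ^ p) * u ^ p) * (36 * al' + 72 * be')))
      = PowerSeries.X ^ p * ((1 + PowerSeries.X ^ p) *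
        PowerSeries.coeff (p - 1) (36 * al' + 72 * be')) := by
    have h := PowerSeries.coeff_succ_X_mul (p - 1) (((1 + u ^ p) * u ^ p) * (36 * al' + 72 * be'))
    rw [Nat.sub_add_cancel (by omega)] at h
    have ht' : t = PowerSeries.X := rfl
    rw [ht', h]
    have h2 : ((1 + u ^ p) * u ^ p) =
        PowerSeries.C ((1 + PowerSeries.X ^ p) * PowerSeries.X ^ p) := by
      rw [hu, gu, map_mul, map_add, map_pow, map_one]
    rw [h2, PowerSeries.coeff_C_mul]
    ring
  rw [e4]
  have h5 := PowerSeries.coeff_X_pow_mul ((1 + PowerSeries.X ^ p) *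
        PowerSeries.coeff (p - 1) (36 * al' + 72 * be')) p 0
  rw [zero_add] at h5
  rw [h5, PowerSeries.coeff_zero_eq_constantCoeff_apply, map_mul, map_add, map_pow, map_one,
    PowerSeries.constantCoeff_X, zero_pow (by omega), add_zero, one_mul]

/-- set `u = 0` -/
def sp (A : Type) [CommRing A] : D2 A →+* PowerSeries A :=
  PowerSeries.map (PowerSeries.constantCoeff (R := A))

theorem sp_t (A : Type) [CommRing A] : sp A (gt A) = PowerSeries.X := by simp [sp, gt]
theorem sp_u (A : Type) [CommRing A] : sp A (gu A) = 0 := by simp [sp, gu]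

theorem val (c : ZMod p) (hc : 2 * c = 1) (r a b : D2 (ZMod p)) (hr : gR (ZMod p) * r = 1) :
    ∃ r0 : PowerSeries (ZMod p), (12 + 15 * PowerSeries.X + 5 * PowerSeries.X ^ 2) * r0 = 1 ∧
    PowerSeries.coeff p (PowerSeries.coeff p
      (gPs (PowerSeries.C (PowerSeries.C c)) r a b p)) = 36 * PowerSeries.coeff (p - 1) r0 := by
  refine ⟨sp _ r, ?_, ?_⟩
  · have h := congrArg (sp (ZMod p)) hr
    simp only [gR, map_mul, map_add, map_pow, sp_t, sp_u, map_ofNat, map_one, mul_zero, zero_mul,
      add_zero, ne_eq, OfNat.ofNat_ne_zero, not_false_eq_true, zero_pow] at h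
    exact h
  · rw [coeff_ext]
    have h : ∀ F : D2 (ZMod p), PowerSeries.constantCoeff (PowerSeries.coeff (p - 1) F)
        = PowerSeries.coeff (p - 1) (sp (ZMod p) F) := by
      intro F; simp [sp]
    rw [h]
    have hC : sp (ZMod p) (PowerSeries.C (PowerSeries.C c)) = PowerSeries.C c := by simp [sp]
    simp only [map_mul, map_add, map_sub, map_neg, map_pow, sp_t, sp_u, map_ofNat, map_one,
      mul_zero, zero_mul, add_zero, zero_add, hC, zero_sub, mul_one]
    have h2 : (2 : PowerSeries (ZMod p)) * PowerSeries.C c = 1 := by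
      have := congrArg (PowerSeries.C (R := ZMod p)) hc
      rw [map_mul, map_ofNat, map_one] at this
      exact this
    have h3 : 36 * (sp (ZMod p) r * -PowerSeries.C c) + 72 * (sp (ZMod p) r *
        (3 * PowerSeries.C c ^ 2)) = PowerSeries.C (36 : ZMod p) * sp (ZMod p) r := by
      rw [map_ofNat]
      linear_combination (sp (ZMod p) r) * (-18 + 54 * (2 * PowerSeries.C c + 1)) * h2
    rw [← PowerSeries.coeff_C_mul, ← h3, map_add]

theorem rec_U (r0 : PowerSeries (ZMod p))
    (h : (12 + 15 * PowerSeries.X + 5 * PowerSeries.X ^ 2) * r0 = 1) (n : ℕ) :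
    (12 : ZMod p) ^ (n + 1) * PowerSeries.coeff n r0 = ((lucU (-15) 60 (n + 1) : ℤ) : ZMod p) := by
  have hr : PowerSeries.C (12 : ZMod p) * r0 = 1 - PowerSeries.C (15 : ZMod p) * (PowerSeries.X * r0)
      - PowerSeries.C (5 : ZMod p) * (PowerSeries.X ^ 2 * r0) := by
    rw [map_ofNat, map_ofNat, map_ofNat]
    linear_combination h
  have h0 : 12 * PowerSeries.coeff 0 r0 = 1 := by
    have := congrArg (PowerSeries.coeff 0) hr
    simp only [map_sub, PowerSeries.coeff_C_mul] at this
    rw [PowerSeries.coeff_zero_X_mul, pow_two, mul_assoc, PowerSeries.coeff_zero_X_mul] at this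
    simpa using this
  have h1 : 12 * PowerSeries.coeff 1 r0 = -15 * PowerSeries.coeff 0 r0 := by
    have := congrArg (PowerSeries.coeff 1) hr
    simp only [map_sub, PowerSeries.coeff_C_mul] at this
    rw [PowerSeries.coeff_succ_X_mul, pow_two, mul_assoc, PowerSeries.coeff_succ_X_mul,
      PowerSeries.coeff_zero_X_mul, PowerSeries.coeff_one] at this
    simp at this
    simpa using this
  have h2 : ∀ k, 12 * PowerSeries.coeff (k + 2) r0 = -15 * PowerSeries.coeff (k + 1) r0
      - 5 * PowerSeries.coeff k r0 := by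
    intro k
    have := congrArg (PowerSeries.coeff (k + 2)) hr
    simp only [map_sub, PowerSeries.coeff_C_mul] at this
    rw [PowerSeries.coeff_succ_X_mul, pow_two, mul_assoc, PowerSeries.coeff_succ_X_mul,
      PowerSeries.coeff_succ_X_mul, PowerSeries.coeff_one] at this
    simp at this
    linear_combination this
  induction n using Nat.strong_induction_on with
  | _ n ih =>
    match n, ih with
    | 0, _ =>
      have e : lucU (-15) 60 (0 + 1) = 1 := rfl
      rw [e, zero_add, pow_one, Int.cast_one]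
      exact h0
    | 1, _ =>
      have e : lucU (-15) 60 (1 + 1) = -15 := by simp [lucU]
      rw [e]
      push_cast
      linear_combination 12 * h1 + (-15) * h0
    | (k + 2), ih =>
      have i1 := ih (k + 1) (by omega)
      have i0 := ih k (by omega)
      have e : lucU (-15) 60 (k + 2 + 1) = -15 * lucU (-15) 60 (k + 1 + 1) - 60 * lucU (-15) 60 (k + 1) := rfl
      rw [e]
      push_cast
      rw [← i1, ← i0]
      linear_combination 12 ^ (k + 2) * h2 k

end charp

theorem m_A1P (h1 : T_A1F) (h2 : T_LUC) : T_A1P := by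
  intro p hp hp7
  have : Fact p.Prime := ⟨hp⟩
  obtain ⟨c, r, a, b, hc, hr, ha, hb, h⟩ := AA_eq h1
  have hodd : p ≠ 2 := by omega
  have h6p : ((6 : ℤ) : ZMod p) ≠ 0 := by
    intro h0
    have : (p : ℤ) ∣ 6 := (ZMod.intCast_zmod_eq_zero_iff_dvd 6 p).1 h0
    have := Int.le_of_dvd (by norm_num) this
    omega
  have hu6 : IsUnit ((Int.castRingHom (ZMod p)) 6) := by
    rw [isUnit_iff_ne_zero]; simpa using h6p
  let f : Z6 →+* ZMod p := IsLocalization.Away.lift (6 : ℤ) hu6
  obtain ⟨k, z, hz⟩ := Z6_surj (PowerSeries.coeff p (PowerSeries.coeff p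
        (gPs (PowerSeries.C (PowerSeries.C c)) r a b p)))
  -- value mod p
  have hcp : 2 * f c = 1 := by
    have := congrArg f hc
    rwa [map_mul, map_ofNat, map_one] at this
  have hrp : gR (ZMod p) * mp f r = 1 := by rw [← mp_gR f, ← map_mul, hr, map_one]
  obtain ⟨r0, hr0, hval⟩ := val p (f c) hcp (mp f r) (mp f a) (mp f b) hrp
  have hCC : mp f (PowerSeries.C (PowerSeries.C c)) = PowerSeries.C (PowerSeries.C (f c)) := by
    simp [mp]
  rw [← hCC, ← mp_gPs, mp_coeff] at hval
  have hrec := rec_U p r0 hr0 (p - 1)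
  rw [Nat.sub_add_cancel hp.one_lt.le, ZMod.pow_card] at hrec
  have hluc := h2 p hp hodd (-15) 60
  have hluc' : ((lucU (-15) 60 p : ℤ) : ZMod p) = (((-15 : ℤ) ^ ((p - 1) / 2) : ℤ) : ZMod p) := by
    have e : ((-15 : ℤ) ^ 2 - 4 * 60) = -15 := by norm_num
    rw [e] at hluc
    have := (ZMod.intCast_zmod_eq_zero_iff_dvd _ p).2 hluc
    rw [Int.cast_sub, sub_eq_zero] at this
    exact this
  have hleg : ((jacobiSym (-15) p : ℤ) : ZMod p) = (((-15 : ℤ) ^ ((p - 1) / 2) : ℤ) : ZMod p) := by
    rw [← jacobiSym.legendreSym.to_jacobiSym, legendreSym.eq_pow]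
    have hp2 : p / 2 = (p - 1) / 2 := by
      have := hp.eq_two_or_odd
      omega
    rw [hp2]
    push_cast
    rfl
  have hfin : f (PowerSeries.coeff p (PowerSeries.coeff p
        (gPs (PowerSeries.C (PowerSeries.C c)) r a b p)))
      = ((3 * jacobiSym (-15) p : ℤ) : ZMod p) := by
    rw [hval]
    push_cast
    rw [hleg, ← hluc', ← hrec]
    ring
  have hz' := congrArg f hz
  rw [map_mul, map_pow, map_ofNat, map_intCast, hfin] at hz'
  have hd : (p : ℤ) ∣ z - 6 ^ k * (3 * jacobiSym (-15) p) := by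
    rw [← ZMod.intCast_zmod_eq_zero_iff_dvd]
    push_cast
    push_cast at hz'
    rw [← hz']
    ring
  have hQ := congrArg Z6Q hz
  rw [map_mul, map_pow, map_ofNat, map_intCast] at hQ
  have hm' := h p
  have h6 : 6 ^ k * AA p = p * z := by
    have : ((6 ^ k * AA p : ℤ) : ℚ) = ((p * z : ℤ) : ℚ) := by
      push_cast
      rw [hm', ← hQ]
      ring
    exact_mod_cast this
  have hd2 : (p : ℤ) ^ 2 ∣ 6 ^ k * (AA p - 3 * p * jacobiSym (-15) p) := by
    have e : (6 : ℤ) ^ k * (AA p - 3 * p * jacobiSym (-15) p)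
        = p * (z - 6 ^ k * (3 * jacobiSym (-15) p)) := by
      rw [mul_sub, h6]; ring
    rw [e, pow_two]
    exact mul_dvd_mul_left _ hd
  have hcop : IsCoprime ((p : ℤ) ^ 2) (6 ^ k) := by
    apply IsCoprime.pow
    rw [Int.isCoprime_iff_gcd_eq_one, ← Int.isCoprime_iff_gcd_eq_one]
    have : Nat.Coprime p 6 := by
      rw [hp.coprime_iff_not_dvd]
      intro hd6
      have := Nat.le_of_dvd (by norm_num) hd6
      omega
    exact_mod_cast Nat.isCoprime_iff_coprime.2 this
  exact hcop.dvd_of_dvd_mul_left hd2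

end

end Pool.Agent.H48.S36
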