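import Pool.Agent.H48.S36.Base

set_option autoImplicit false

open Polynomial

namespace Pool.Agent.H48.S36

open Pool.Agent.H32.S36

theorem m_A6 (h1 : T_A1F) : T_A6 := by
  obtain ⟨c, r, a, b, hc, hr, ha, hb, h⟩ := AA_eq h1
  intro m hm
  obtain ⟨k, z, hz⟩ := Z6_surj (PowerSeries.coeff m (PowerSeries.coeff m
        (gPs (PowerSeries.C (PowerSeries.C c)) r a b m)))
  refine ⟨k, z, ?_⟩
  have hQ := congrArg Z6Q hz
  rw [map_mul, map_pow, map_ofNat, map_intCast] at hQ
  have hm' := h m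
  have : ((6 ^ k * AA m : ℤ) : ℚ) = ((m * z : ℤ) : ℚ) := by
    push_cast
    rw [hm', ← hQ]
    ring
  exact_mod_cast this

end Pool.Agent.H48.S36
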