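import Pool.Agent.H32.S36.Targets

set_option autoImplicit false

open Complex Polynomial

namespace Pool.Agent.H48.S36

open Pool.Agent.H32.S36

noncomputable section

theorem ne10 (τ : ℂ) (h : 0 < τ.im) : (10 * τ ^ 2 : ℂ) ≠ 0 := by
  have : τ ≠ 0 := by rintro rfl; simp at h
  exact mul_ne_zero (by norm_num) (pow_ne_zero _ this)

theorem ne5 (τ : ℂ) (h : 0 < τ.im) : (5 * (2 * τ - 1) ^ 2 : ℂ) ≠ 0 := by
  have : 2 * τ - 1 ≠ 0 := by
    intro h0
    have := congrArg Complex.im h0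
    simp at this
    linarith
  exact mul_ne_zero (by norm_num) (pow_ne_zero _ this)

theorem MFmul {s s' : ℂ} {m m' : ℤ} {F G : ℂ → ℂ} (hF : MF s m F) (hG : MF s' m' G) :
    MF (s * s') (m + m') (fun τ => F τ * G τ) where
  hol τ h := (hF.hol τ h).mul (hG.hol τ h)
  per τ h := by simp only [hF.per τ h, hG.per τ h]
  w10 τ h := by
    simp only [hF.w10 τ h, hG.w10 τ h]
    rw [zpow_add₀ (ne10 τ h)]
    ring
  w5 τ h := by
    simp only [hF.w5 τ h, hG.w5 τ h]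
    rw [zpow_add₀ (ne5 τ h)]
    ring

theorem MFcongr {s s' : ℂ} {m m' : ℤ} {F G : ℂ → ℂ} (hF : MF s m F) (hs : s = s') (hm : m = m')
    (hFG : F = G) : MF s' m' G := by
  subst hs hm hFG
  exact hF

theorem MFone : MF 1 0 (fun _ => 1) where
  hol τ h := by fun_prop
  per τ h := rfl
  w10 τ h := by simp
  w5 τ h := by simp

theorem MFpow {s : ℂ} {m : ℤ} {F : ℂ → ℂ} (hF : MF s m F) (n : ℕ) :
    MF (s ^ n) (n * m) (fun τ => F τ ^ n) := by
  induction n with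
  | zero =>
    exact MFcongr MFone (by simp) (by simp) (by funext τ; simp)
  | succ k ih =>
    exact MFcongr (MFmul ih hF) (by rw [pow_succ]) (by push_cast; ring) (by funext τ; rw [pow_succ])

theorem MFadd {s : ℂ} {m : ℤ} {F G : ℂ → ℂ} (hF : MF s m F) (hG : MF s m G) :
    MF s m (fun τ => F τ + G τ) where
  hol τ h := (hF.hol τ h).add (hG.hol τ h)
  per τ h := by simp only [hF.per τ h, hG.per τ h]
  w10 τ h := by simp only [hF.w10 τ h, hG.w10 τ h]; ring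
  w5 τ h := by simp only [hF.w5 τ h, hG.w5 τ h]; ring

theorem MFsub {s : ℂ} {m : ℤ} {F G : ℂ → ℂ} (hF : MF s m F) (hG : MF s m G) :
    MF s m (fun τ => F τ - G τ) where
  hol τ h := (hF.hol τ h).sub (hG.hol τ h)
  per τ h := by simp only [hF.per τ h, hG.per τ h]
  w10 τ h := by simp only [hF.w10 τ h, hG.w10 τ h]; ring
  w5 τ h := by simp only [hF.w5 τ h, hG.w5 τ h]; ring

theorem MFsmul {s : ℂ} {m : ℤ} {F : ℂ → ℂ} (c : ℂ) (hF : MF s m F) :
    MF s m (fun τ => c * F τ) where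
  hol τ h := (hF.hol τ h).const_mul c
  per τ h := by simp only [hF.per τ h]
  w10 τ h := by simp only [hF.w10 τ h]; ring
  w5 τ h := by simp only [hF.w5 τ h]; ring

theorem HLpow (h3 : T_HLM) {F : ℂ → ℂ} {f : LaurentSeries ℂ} (hF : HL F f) (n : ℕ) :
    HL (fun τ => F τ ^ n) (f ^ n) := by
  induction n with
  | zero => simpa using HL.const 1
  | succ k ih =>
    simp only [pow_succ]
    exact h3 _ _ _ _ ih hF

theorem HLprod (h3 : T_HLM) {ι : Type} (s : Finset ι) {F : ι → ℂ → ℂ} {f : ι → LaurentSeries ℂ}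
    (h : ∀ i ∈ s, HL (F i) (f i)) : HL (fun τ => ∏ i ∈ s, F i τ) (∏ i ∈ s, f i) := by
  classical
  induction s using Finset.induction_on with
  | empty => simpa using HL.const 1
  | insert a s ha ih =>
    rw [Finset.prod_insert ha]
    simp only [Finset.prod_insert ha]
    exact h3 _ _ _ _ (h a (Finset.mem_insert_self a s))
      (ih (fun i hi => h i (Finset.mem_insert_of_mem hi)))

theorem mem_OO (z : ℂ) : z ∈ OO ↔ IsIntegral ℤ z := Iff.rfl

theorem zeta_mem (p : ℕ) (hp : 0 < p) (j : ℕ) (n : ℤ) :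
    Complex.exp (2 * Real.pi * Complex.I * ((j : ℂ) / p)) ^ n ∈ OO := by
  rw [mem_OO]
  have hp0 : (p : ℂ) ≠ 0 := by exact_mod_cast hp.ne'
  have h1 : Complex.exp (2 * Real.pi * Complex.I * ((j : ℂ) / p)) ^ p = 1 := by
    rw [← Complex.exp_nat_mul]
    have : (p : ℂ) * (2 * Real.pi * Complex.I * ((j : ℂ) / p)) = (j : ℂ) * (2 * Real.pi * Complex.I) := by
      field_simp
    rw [this]
    exact Complex.exp_nat_mul_two_pi_mul_I j
  have h2 : (Complex.exp (2 * Real.pi * Complex.I * ((j : ℂ) / p)) ^ n) ^ p = 1 := by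
    rw [← zpow_natCast, ← zpow_mul, mul_comm n (p : ℤ), zpow_mul, zpow_natCast, h1, one_zpow]
  exact IsIntegral.of_pow hp (by rw [h2]; exact isIntegral_one)

theorem CIn_tw (p : ℕ) (hp : 0 < p) (j : ℕ) (f : LaurentSeries ℤ) :
    CIn OO (tw ((j : ℂ) / p) (zc f)) := by
  intro n
  rw [tw_coeff]
  exact OO.mul_mem (CIn.zc OO f n) (zeta_mem p hp j n)

/-- multiples of `p²` -/
def JJ (p : ℕ) (s : LaurentSeries ℂ) : Prop :=
  ∃ w, CIn OO w ∧ s = HahnSeries.C ((p : ℂ) ^ 2) * w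

theorem JJ.add {p : ℕ} {s t : LaurentSeries ℂ} (hs : JJ p s) (ht : JJ p t) : JJ p (s + t) := by
  obtain ⟨w, hw, rfl⟩ := hs
  obtain ⟨v, hv, rfl⟩ := ht
  exact ⟨w + v, hw.add hv, by ring⟩

theorem JJ.sub {p : ℕ} {s t : LaurentSeries ℂ} (hs : JJ p s) (ht : JJ p t) : JJ p (s - t) := by
  obtain ⟨w, hw, rfl⟩ := hs
  obtain ⟨v, hv, rfl⟩ := ht
  exact ⟨w - v, hw.sub hv, by ring⟩

theorem JJ.mul {p : ℕ} {s t : LaurentSeries ℂ} (hs : JJ p s) (ht : CIn OO t) : JJ p (t * s) := by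
  obtain ⟨w, hw, rfl⟩ := hs
  exact ⟨t * w, ht.mul hw, by ring⟩

theorem JJ.zero (p : ℕ) : JJ p 0 := ⟨0, CIn.zero _, by simp⟩

theorem JJ.sum {p : ℕ} {ι : Type} (s : Finset ι) {f : ι → LaurentSeries ℂ}
    (h : ∀ i ∈ s, JJ p (f i)) : JJ p (∑ i ∈ s, f i) := by
  classical
  induction s using Finset.induction_on with
  | empty => rw [Finset.sum_empty]; exact JJ.zero p
  | insert a s ha ih =>
    rw [Finset.sum_insert ha]
    exact (h a (Finset.mem_insert_self a s)).add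
      (ih (fun i hi => h i (Finset.mem_insert_of_mem hi)))

theorem JJ.prod {p : ℕ} {ι : Type} (s : Finset ι) {f : ι → LaurentSeries ℂ} {Y : LaurentSeries ℂ}
    (hY : CIn OO Y) (h : ∀ i ∈ s, JJ p (f i)) : JJ p (∏ i ∈ s, (Y - f i) - Y ^ s.card) := by
  classical
  induction s using Finset.induction_on with
  | empty => simpa using JJ.zero p
  | insert a s ha ih =>
    have ih' := ih (fun i hi => h i (Finset.mem_insert_of_mem hi))
    have hCI : ∀ t, JJ p t → CIn OO t := by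
      rintro t ⟨w, hw, rfl⟩
      exact (CIn.C (by
        rw [mem_OO]
        have : (p : ℂ) ^ 2 = ((p ^ 2 : ℕ) : ℂ) := by push_cast; rfl
        rw [this]
        exact isIntegral_algebraMap (R := ℤ) (A := ℂ) (x := ((p ^ 2 : ℕ) : ℤ)) |> fun h => by
          simpa using h)).mul hw
    have hP : CIn OO (∏ i ∈ s, (Y - f i)) :=
      CIn.prod s (fun i hi => hY.sub (hCI _ (h i (Finset.mem_insert_of_mem hi))))
    rw [Finset.prod_insert ha, Finset.card_insert_of_notMem ha]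
    have e : (Y - f a) * ∏ i ∈ s, (Y - f i) - Y ^ (s.card + 1)
        = Y * (∏ i ∈ s, (Y - f i) - Y ^ s.card) - (∏ i ∈ s, (Y - f i)) * f a := by ring
    rw [e]
    exact (ih'.mul hY).sub ((h a (Finset.mem_insert_self a s)).mul hP)

theorem m_SPM (h1 : T_HKM) (h2 : T_HKL) (h3 : T_HLM) (h4 : T_HLV) (h5 : T_HLS) (h6 : T_POL0)
    (_h7 : T_HLU) : T_SPM := by
  intro x h D xz hz dz pk p hp hp2 hp5 l hl
  have hpp := hp.out.pos
  have hodd : p % 2 = 1 := hp.out.eq_two_or_odd.resolve_left hp2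
  obtain ⟨hsum, hprod⟩ := h1 h pk.mh p hp2 hp5
  set F : ℂ → ℂ := fun τ => (∏ i, (l * h τ - hk p h i τ)) - (l * h τ) ^ (p + 1)
    + (l * h τ) ^ p * ∑ i, hk p h i τ with hFdef
  have hlh : MF (-1) (-1) (fun τ => l * h τ) := MFsmul l pk.mh
  have hev : Even (p + 1) := by rw [Nat.even_iff]; omega
  have hoddp : Odd p := Nat.odd_iff.2 hodd
  have hMF : MF 1 (-((p : ℤ) + 1)) F := by
    refine MFadd (MFsub (hprod l) ?_) ?_
    · exact MFcongr (MFpow hlh (p + 1)) hev.neg_one_pow (by push_cast; ring) rfl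
    · exact MFcongr (MFmul (MFpow hlh p) hsum) (by rw [hoddp.neg_one_pow]; norm_num)
        (by push_cast; ring) rfl
  obtain ⟨r, k, hr, hrk⟩ : ∃ r k : ℕ, Even r ∧ r + (p + 1) = 4 * k := by
    by_cases h0 : (p + 1) % 4 = 0
    · exact ⟨0, (p + 1) / 4, by simp, by omega⟩
    · exact ⟨2, (p + 3) / 4, by simp, by omega⟩
  set G : ℂ → ℂ := fun τ => F τ * h τ ^ r * D τ ^ k with hGdef
  have hrk' : (r : ℤ) + (p + 1) = 4 * k := by exact_mod_cast hrk
  have hG : MF 1 0 G := by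
    refine MFcongr (MFmul (MFmul hMF (MFpow pk.mh r)) (MFpow pk.md k)) ?_ ?_ rfl
    · rw [hr.neg_one_pow]; simp
    · linear_combination -hrk'
  -- the expansion
  set Y : LaurentSeries ℂ := HahnSeries.C l * VV p hpp (zc hz) with hY
  have hYI : CIn OO Y := (CIn.C hl).mul ((CIn.zc OO hz).VV p hpp)
  set g : LaurentSeries ℂ := (∏ i, (Y - hkz p hpp hz i)) - Y ^ (p + 1)
    + Y ^ p * ∑ i, hkz p hpp hz i with hg
  have hlY : HL (fun τ => l * h (p * τ)) Y := HL.smul l (h4 h (zc hz) p hpp pk.lh)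
  have hHK : ∀ i, HL (fun τ => hk p h i (p * τ)) (hkz p hpp hz i) := fun i => h2 h hz pk.lh p i
  have hF : HL (fun τ => F (p * τ)) g := by
    refine HL.add (HL.sub ?_ (HLpow h3 hlY (p + 1))) (h3 _ _ _ _ (HLpow h3 hlY p) ?_)
    · exact HLprod h3 Finset.univ (fun i _ => HL.sub hlY (hHK i))
    · exact HL.sum Finset.univ (fun i _ => hHK i)
  have hGL : HL (fun τ => G (p * τ)) (g * VV p hpp (zc hz) ^ r * VV p hpp (zc dz) ^ k) := by
    refine h3 _ _ _ _ (h3 _ _ _ _ hF (HLpow h3 (h4 h (zc hz) p hpp pk.lh) r))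
      (HLpow h3 (h4 D (zc dz) p hpp pk.ld) k)
  have hJ0 : ∀ j : ZMod p, JJ p (hkz p hpp hz (some j)) := by
    intro j
    exact ⟨tw ((j.val : ℂ) / p) (zc hz), CIn_tw p hpp j.val hz, rfl⟩
  have hgJ : JJ p g := by
    have hN : CIn OO (hkz p hpp hz none) := (CIn.zc OO hz).VV _ _
    have e : g = (Y - hkz p hpp hz none) * (∏ j : ZMod p, (Y - hkz p hpp hz (some j)) - Y ^ p)
        + Y ^ p * ∑ j : ZMod p, hkz p hpp hz (some j) := by
      rw [hg, Fintype.prod_option, Fintype.sum_option]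
      ring
    rw [e]
    have hP := JJ.prod (p := p) (Finset.univ : Finset (ZMod p)) hYI (fun j _ => hJ0 j)
    rw [Finset.card_univ, ZMod.card] at hP
    exact (hP.mul (hYI.sub hN)).add ((JJ.sum _ (fun j _ => hJ0 j)).mul (hYI.pow p))
  have hfullJ : JJ p (g * VV p hpp (zc hz) ^ r * VV p hpp (zc dz) ^ k) := by
    have h8 : CIn OO (VV p hpp (zc hz) ^ r * VV p hpp (zc dz) ^ k) :=
      (((CIn.zc OO hz).VV p hpp).pow r).mul (((CIn.zc OO dz).VV p hpp).pow k)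
    have := hgJ.mul h8
    have e : VV p hpp (zc hz) ^ r * VV p hpp (zc dz) ^ k * g
        = g * VV p hpp (zc hz) ^ r * VV p hpp (zc dz) ^ k := by ring
    rwa [e] at this
  obtain ⟨f, hf, hfc⟩ := h5 G _ p hpp hG.per hGL
  obtain ⟨w, hw, hwe⟩ := hfullJ
  let A : AddSubgroup ℂ := AddSubgroup.map (AddMonoidHom.mulLeft ((p : ℂ) ^ 2)) OO.toAddSubgroup
  obtain ⟨Q, hQA, hQ⟩ := h6 x xz pk.mx pk.lx pk.xlow pk.xm1 A G f hG hf (by
    intro n _
    rw [hfc n, hwe, HahnSeries.C_mul_eq_smul, HahnSeries.coeff_smul, smul_eq_mul]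
    exact ⟨w.coeff (p * n), hw _, rfl⟩)
  refine ⟨Q, k, ?_, ?_⟩
  · intro i
    obtain ⟨o, ho, he⟩ := hQA i
    exact ⟨o, ho, he.symm⟩
  · intro τ hτ
    have hq := hQ τ hτ
    have e : ((∏ i, (l * h τ - hk p h i τ)) - (l * h τ) ^ (p + 1)
      + (l * h τ) ^ p * ∑ i, hk p h i τ) = F τ := rfl
    rw [e, ← hq, ← pk.f4 τ hτ]
    simp only [hGdef]
    have e2 : (h τ ^ 4 * D τ) ^ k = h τ ^ r * h τ ^ (p + 1) * D τ ^ k := by
      rw [mul_pow, ← pow_mul, ← hrk, pow_add]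
    rw [e2]
    ring

end

end Pool.Agent.H48.S36
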