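import Pool.Agent.H32.S36.Targets

set_option autoImplicit false

open Polynomial

namespace Pool.Agent.H48.S36

open Pool.Agent.H32.S36

noncomputable section

/-- two-variable power series over `A` -/
abbrev D2 (A : Type) [CommRing A] : Type := PowerSeries (PowerSeries A)

section gen
variable (A : Type) [CommRing A]

def gt : D2 A := PowerSeries.X
def gu : D2 A := PowerSeries.C PowerSeries.X
def gR : D2 A :=
  12 + 15 * gt A + 6 * gu A * gt A + 5 * gt A ^ 2 + 15 * gu A * gt A ^ 2 + 12 * gu A ^ 2 * gt A ^ 2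
def gL (n : ℕ) : D2 A :=
  ∑ i ∈ Finset.range (n + 1), ((n.choose i : ℕ) : D2 A) ^ 2 * 36 ^ i * gu A ^ i * gt A ^ (n - i)
def gM (n : ℕ) : D2 A :=
  ∑ i ∈ Finset.range (n + 1),
    (i : D2 A) * ((n.choose i : ℕ) : D2 A) ^ 2 * 36 ^ i * gu A ^ i * gt A ^ (n - i)
def gN (n : ℕ) : D2 A :=
  ∑ i ∈ Finset.range n, (((n - 1).choose i : ℕ) : D2 A) * ((n.choose (i + 1) : ℕ) : D2 A) *
    36 ^ (i + 1) * gu A ^ (i + 1) * gt A ^ (n - (i + 1))
variable {A}
def gal (hf r a b : D2 A) : D2 A :=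
  r * (12 * gu A * gt A - hf * (gu A * gt A ^ 2 + gt A)
    + hf * (gu A * gt A ^ 2 * a + gu A * gt A * b))
def gbe (hf r : D2 A) : D2 A := gt A * r * (-9 * gu A + 3 * hf ^ 2 * (gu A * gt A + 1))
def gPh (hf r a b : D2 A) (m : ℕ) : D2 A :=
  (1 + gt A) ^ m * (1 + gu A) ^ m * ((m : D2 A) * gal hf r a b * gL A m + 2 * gbe hf r * gM A m)
def gPs (hf r a b : D2 A) (m : ℕ) : D2 A :=
  (1 + gt A) ^ m * (1 + gu A) ^ m * (gal hf r a b * gL A m + 2 * gbe hf r * gN A m)

/-- the map on two-variable power series -/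
def mp {A B : Type} [CommRing A] [CommRing B] (f : A →+* B) : D2 A →+* D2 B :=
  PowerSeries.map (PowerSeries.map f)

theorem mp_gt {A B : Type} [CommRing A] [CommRing B] (f : A →+* B) : mp f (gt A) = gt B := by
  simp [mp, gt]

theorem mp_gu {A B : Type} [CommRing A] [CommRing B] (f : A →+* B) : mp f (gu A) = gu B := by
  simp [mp, gu]

theorem mp_gR {A B : Type} [CommRing A] [CommRing B] (f : A →+* B) : mp f (gR A) = gR B := by
  simp only [gR, map_add, map_mul, map_pow, mp_gt, mp_gu, map_ofNat]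

theorem mp_gL {A B : Type} [CommRing A] [CommRing B] (f : A →+* B) (n : ℕ) :
    mp f (gL A n) = gL B n := by
  simp only [gL, map_sum, map_mul, map_pow, mp_gt, mp_gu, map_natCast, map_ofNat]

theorem mp_gM {A B : Type} [CommRing A] [CommRing B] (f : A →+* B) (n : ℕ) :
    mp f (gM A n) = gM B n := by
  simp only [gM, map_sum, map_mul, map_pow, mp_gt, mp_gu, map_natCast, map_ofNat]

theorem mp_gN {A B : Type} [CommRing A] [CommRing B] (f : A →+* B) (n : ℕ) :
    mp f (gN A n) = gN B n := by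
  simp only [gN, map_sum, map_mul, map_pow, mp_gt, mp_gu, map_natCast, map_ofNat]

theorem mp_gal {A B : Type} [CommRing A] [CommRing B] (f : A →+* B) (hf r a b : D2 A) :
    mp f (gal hf r a b) = gal (mp f hf) (mp f r) (mp f a) (mp f b) := by
  simp only [gal, map_add, map_sub, map_mul, map_pow, mp_gt, mp_gu, map_ofNat]

theorem mp_gbe {A B : Type} [CommRing A] [CommRing B] (f : A →+* B) (hf r : D2 A) :
    mp f (gbe hf r) = gbe (mp f hf) (mp f r) := by
  simp only [gbe, map_add, map_neg, map_mul, map_pow, mp_gt, mp_gu, map_ofNat, map_one]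

theorem mp_gPh {A B : Type} [CommRing A] [CommRing B] (f : A →+* B) (hf r a b : D2 A) (m : ℕ) :
    mp f (gPh hf r a b m) = gPh (mp f hf) (mp f r) (mp f a) (mp f b) m := by
  simp only [gPh, map_add, map_mul, map_pow, mp_gt, mp_gu, map_ofNat, map_one, map_natCast,
    mp_gal, mp_gbe, mp_gL, mp_gM]

theorem mp_gPs {A B : Type} [CommRing A] [CommRing B] (f : A →+* B) (hf r a b : D2 A) (m : ℕ) :
    mp f (gPs hf r a b m) = gPs (mp f hf) (mp f r) (mp f a) (mp f b) m := by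
  simp only [gPs, map_add, map_mul, map_pow, mp_gt, mp_gu, map_ofNat, map_one,
    mp_gal, mp_gbe, mp_gL, mp_gN]

theorem mp_coeff {A B : Type} [CommRing A] [CommRing B] (f : A →+* B) (F : D2 A) (i j : ℕ) :
    PowerSeries.coeff i (PowerSeries.coeff j (mp f F)) =
      f (PowerSeries.coeff i (PowerSeries.coeff j F)) := by
  simp [mp]

theorem gM_eq (n : ℕ) (A : Type) [CommRing A] : gM A n = (n : D2 A) * gN A n := by
  unfold gM gN
  rw [Finset.sum_range_succ', Finset.mul_sum]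
  simp only [Nat.cast_zero, zero_mul, add_zero]
  refine Finset.sum_congr rfl (fun i hi => ?_)
  have hin := Finset.mem_range.1 hi
  have h1 : (i + 1) * n.choose (i + 1) = n * (n - 1).choose i := by
    obtain ⟨k, rfl⟩ : ∃ k, n = k + 1 := ⟨n - 1, by omega⟩
    rw [Nat.add_sub_cancel, Nat.add_one_mul_choose_eq, mul_comm]
  have h2 : ((i + 1 : ℕ) : D2 A) * ((n.choose (i + 1) : ℕ) : D2 A)
      = (n : D2 A) * (((n - 1).choose i : ℕ) : D2 A) := by
    exact_mod_cast congrArg (fun k : ℕ => (k : D2 A)) h1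
  linear_combination (((n.choose (i + 1) : ℕ) : D2 A) * 36 ^ (i + 1) * gu A ^ (i + 1) *
    gt A ^ (n - (i + 1))) * h2

theorem gPh_eq (hf r a b : D2 A) (m : ℕ) : gPh hf r a b m = (m : D2 A) * gPs hf r a b m := by
  unfold gPh gPs
  rw [gM_eq]
  ring

/-- inverses -/
theorem exists_inv (h12 : IsUnit (12 : A)) : ∃ r : D2 A, gR A * r = 1 := by
  obtain ⟨v, hv⟩ := h12
  let w : (PowerSeries A)ˣ := Units.map (PowerSeries.C (R := A)).toMonoidHom v
  refine ⟨PowerSeries.invOfUnit (gR A) w, PowerSeries.mul_invOfUnit _ _ ?_⟩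
  have hw : (w : PowerSeries A) = 12 := by
    have : (w : PowerSeries A) = PowerSeries.C (v : A) := rfl
    rw [this, hv, map_ofNat]
  rw [hw]
  simp [gR, gt, gu]
  exact map_ofNat _ 12

theorem exists_inv_t : ∃ a : D2 A, (1 + gt A) * a = 1 := by
  refine ⟨PowerSeries.invOfUnit (1 + gt A) 1, PowerSeries.mul_invOfUnit _ _ ?_⟩
  simp [gt]

theorem exists_inv_u : ∃ b : D2 A, (1 + gu A) * b = 1 := by
  have h : (1 + PowerSeries.X : PowerSeries A) * PowerSeries.invOfUnit (1 + PowerSeries.X) 1 = 1 :=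
    PowerSeries.mul_invOfUnit _ _ (by simp)
  refine ⟨PowerSeries.C (PowerSeries.invOfUnit (1 + PowerSeries.X) 1), ?_⟩
  have := congrArg (PowerSeries.C (R := PowerSeries A)) h
  rw [map_mul, map_add, map_one] at this
  exact this

end gen

/-- `ℤ[1/6]` -/
abbrev Z6 : Type := Localization.Away (6 : ℤ)

theorem Z6_six : IsUnit (6 : Z6) := by
  have := IsLocalization.Away.algebraMap_isUnit (S := Z6) (6 : ℤ)
  simpa using this

theorem Z6_two : ∃ c : Z6, 2 * c = 1 := by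
  obtain ⟨v, hv⟩ := Z6_six
  refine ⟨3 * ((v⁻¹ : Z6ˣ) : Z6), ?_⟩
  have h : (6 : Z6) * ((v⁻¹ : Z6ˣ) : Z6) = 1 := by rw [← hv]; exact Units.mul_inv v
  linear_combination h

theorem Z6_twelve : IsUnit (12 : Z6) := by
  obtain ⟨c, hc⟩ := Z6_two
  have h2 : IsUnit (2 : Z6) := IsUnit.of_mul_eq_one c hc
  have h := Z6_six.mul h2
  have e : (6 : Z6) * 2 = 12 := by norm_num
  rwa [e] at h

def Z6Q : Z6 →+* ℚ := IsLocalization.Away.lift (6 : ℤ) (g := Int.castRingHom ℚ)
  (by simp [isUnit_iff_ne_zero])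

theorem Z6_surj (z : Z6) : ∃ (n : ℕ) (a : ℤ), z * 6 ^ n = (a : Z6) := by
  obtain ⟨n, a, h⟩ := IsLocalization.Away.surj (6 : ℤ) z
  refine ⟨n, a, ?_⟩
  simpa using h

/-- the main consequence of `T_A1F` -/
theorem AA_eq (h1 : T_A1F) : ∃ (c : Z6) (r a b : D2 Z6), 2 * c = 1 ∧ gR Z6 * r = 1 ∧
    (1 + gt Z6) * a = 1 ∧ (1 + gu Z6) * b = 1 ∧ ∀ m : ℕ, (AA m : ℚ) =
      (m : ℚ) * Z6Q (PowerSeries.coeff m (PowerSeries.coeff m
        (gPs (PowerSeries.C (PowerSeries.C c)) r a b m))) := by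
  obtain ⟨c, hc⟩ := Z6_two
  obtain ⟨r, hr⟩ := exists_inv (A := Z6) Z6_twelve
  obtain ⟨a, ha⟩ := exists_inv_t (A := Z6)
  obtain ⟨b, hb⟩ := exists_inv_u (A := Z6)
  refine ⟨c, r, a, b, hc, hr, ha, hb, fun m => ?_⟩
  have hr' : gR ℚ * mp Z6Q r = 1 := by rw [← mp_gR Z6Q, ← map_mul, hr, map_one]
  have ha' : (1 + gt ℚ) * mp Z6Q a = 1 := by
    rw [← mp_gt Z6Q, ← map_one (mp Z6Q), ← map_add, ← map_mul, ha]
  have hb' : (1 + gu ℚ) * mp Z6Q b = 1 := by
    rw [← mp_gu Z6Q, ← map_one (mp Z6Q), ← map_add, ← map_mul, hb]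
  have h := h1 (mp Z6Q r) (mp Z6Q a) (mp Z6Q b) hr' ha' hb' m
  have hc' : Z6Q c = 1 / 2 := by
    have := congrArg Z6Q hc
    rw [map_mul, map_ofNat, map_one] at this
    linarith
  have e : PhH (mp Z6Q r) (mp Z6Q a) (mp Z6Q b) m
      = mp Z6Q (gPh (PowerSeries.C (PowerSeries.C c)) r a b m) := by
    rw [mp_gPh]
    have e1 : mp Z6Q (PowerSeries.C (PowerSeries.C c)) = hf2 := by
      simp [mp, hf2, hc']
    rw [e1]
    rfl
  rw [h, e, gPh_eq, mp_coeff]
  have e2 : PowerSeries.coeff m (PowerSeries.coeff m ((m : D2 Z6) *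
      gPs (PowerSeries.C (PowerSeries.C c)) r a b m)) = (m : Z6) * PowerSeries.coeff m
        (PowerSeries.coeff m (gPs (PowerSeries.C (PowerSeries.C c)) r a b m)) := by
    have e3 : (m : D2 Z6) = PowerSeries.C (PowerSeries.C (m : Z6)) := by simp
    rw [e3, PowerSeries.coeff_C_mul, PowerSeries.coeff_C_mul]
  rw [e2, map_mul, map_natCast]

end

end Pool.Agent.H48.S36
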